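import Pool.Agent.Run7.h817.DimZero

universe u

/-- Every countable group whose complex group algebra is Calabi-Yau of dimension `d` (in the naive
sense, no finiteness assumption) is finitely generated. -/
theorem Pool.Agent.Results.MP_9b82f5_al.CountableFG.result (G : Type u) [Group G] [Countable G]
    (d : ℕ) (h : Run7.h817.IsCalabiYau (MonoidAlgebra ℂ G) d) : Group.FG G :=
  Run7.h817.fg_of_isCalabiYau' h
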