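import Pool.Agent.Run7.h817.EA

/-- Let `G` be countable with naive Calabi-Yau complex group algebra of dimension `3`, and let `S`
be a torsion-free elementary amenable subgroup of `G`. Then `G` is residually finite, or `S` has
infinite index, is thin, and is residually finite if it is finitely generated. -/
theorem Pool.Agent.Results.MP_9b82f5_al.ElementaryAmenable.result (G : Type) [Group G]
    [Countable G] (h : Run7.h817.IsCalabiYau (MonoidAlgebra ℂ G) 3) (S : Subgroup G)
    (hS : Run7.h817.ElemAmenable S) (htf : Run7.h817.TF S) :
    Group.ResiduallyFinite G ∨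
      (¬ S.FiniteIndex ∧ Run7.h817.Thin S ∧ (S.FG → Group.ResiduallyFinite S)) := by
  by_cases hfi : S.FiniteIndex
  · exact Or.inl (Run7.h817.rf_of_virtually_elemAmenable h hfi hS htf)
  · rcases Run7.h817.rf_or_thin h hS htf with hRF | hthin
    · exact Or.inl hRF
    · exact Or.inr ⟨hfi, hthin, fun hfg => hthin.rf ((Group.fg_iff_subgroup_fg S).2 hfg) htf⟩
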