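import Pool.Agent.Run7.h817.NormalRF

/-- Let `G` be countable with naive Calabi-Yau complex group algebra of dimension `3`. Let `K` be a
finitely generated subgroup of finite complex cohomological dimension which has infinite index in
its normaliser and whose second complex homology is of finite dimension and not zero. Then `G` is
virtually an extension of `K` by an infinite cyclic group, and `G` is residually finite if `K` is. -/
theorem Pool.Agent.Results.MP_9b82f5_al.NormalizerFibre.result (G : Type) [Group G] [Countable G]
    (h : Run7.h817.IsCalabiYau (MonoidAlgebra ℂ G) 3) (K : Subgroup G)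
    (hK : Run7.h817.HasFiniteCd K) (hfg : K.FG)
    (hfd : Module.Finite ℂ (groupHomology (Rep.trivial ℂ K ℂ) 2))
    (hne : ¬ CategoryTheory.Limits.IsZero (groupHomology (Rep.trivial ℂ K ℂ) 2))
    (hinf : ¬ (K.subgroupOf (Subgroup.normalizer (K : Set G))).FiniteIndex) :
    (∃ t ∈ Subgroup.normalizer (K : Set G), (K ⊔ Subgroup.zpowers t).FiniteIndex) ∧
      (Group.ResiduallyFinite K → Group.ResiduallyFinite G) :=
  Run7.h817.normalizer_main h K hK hfg hfd hne hinf
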