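import Pool.Agent.Run7.h817.Strebel
import Pool.Agent.Run7.h817.RFIndex

/-- Let `G` be countable with naive Calabi-Yau complex group algebra of dimension `3`. Every
subgroup of finite complex cohomological dimension with nonzero third homology (in some complex
representation) has finite index in `G`; so `G` is residually finite as soon as it is. -/
theorem Pool.Agent.Results.MP_9b82f5_al.StrebelIndex.result (G : Type) [Group G] [Countable G]
    (h : Run7.h817.IsCalabiYau (MonoidAlgebra ℂ G) 3) (K : Subgroup G)
    (hK : Run7.h817.HasFiniteCd K) (V : Rep.{0} ℂ K)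
    (hV : ¬ CategoryTheory.Limits.IsZero (groupHomology V 3)) :
    K.FiniteIndex ∧ (Group.ResiduallyFinite K → Group.ResiduallyFinite G) :=
  have hi := Run7.h817.finiteIndex_of_groupHomology h K hK V hV
  ⟨hi, Run7.h817.residuallyFinite_of_finiteIndex K hi⟩
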